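import Pool.Agent.X190.FreeProd3

/-! The reduced free product of `(C([0,1]), Lebesgue)` with an infinite reduced free power of `C`
need not be isomorphic to that free power by a state preserving isomorphism. -/

set_option autoImplicit false

namespace Pool.Agent.Results.MP_f16f70_an.NotStateIsomorphic

open Pool.Agent.X190.States Pool.Agent.X190.Fock Pool.Agent.X190.Cuntz Pool.Agent.X190.FreeProd

/-- There are a purely infinite simple separable unital C*-algebra `C` and a state `σ` on `C` such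
that the reduced free product `(D, ρ)` of countably infinitely many copies of `(C, σ)` exists, the
reduced free product `(E, τ)` of `(C([0,1]), Lebesgue)` and `(D, ρ)` exists, and whatever
realisations of these are taken, no *-isomorphism `θ : E → D` satisfies `ρ ∘ θ = τ`. -/
theorem result : ∃ (C : Type) (_ : CStarAlgebra C), TopologicalSpace.SeparableSpace C ∧
      IsPurelyInfiniteSimple C ∧
    ∃ (σ : C →L[ℂ] ℂ), IsState σ ∧
      (∃ (D : Type) (_ : CStarAlgebra D) (ρ : D →L[ℂ] ℂ) (e : ℕ → (C →⋆ₐ[ℂ] D)),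
        IsRedFreeProd (fun _ : ℕ => C) (fun _ => σ) ρ e) ∧
      ∀ (D : Type) [CStarAlgebra D] (ρ : D →L[ℂ] ℂ) (e : ℕ → (C →⋆ₐ[ℂ] D)),
        IsRedFreeProd (fun _ : ℕ => C) (fun _ => σ) ρ e →
        (∃ (E : Type) (_ : CStarAlgebra E) (τ : E →L[ℂ] ℂ)
          (i : C(unitInterval, ℂ) →⋆ₐ[ℂ] E) (k : D →⋆ₐ[ℂ] E), IsRedFreeProd₂ leb ρ τ i k) ∧
        ∀ (E : Type) [CStarAlgebra E] (τ : E →L[ℂ] ℂ) (i : C(unitInterval, ℂ) →⋆ₐ[ℂ] E)
          (k : D →⋆ₐ[ℂ] E),
          IsRedFreeProd₂ leb ρ τ i k → ¬ ∃ θ : E ≃⋆ₐ[ℂ] D, ∀ x, ρ (θ x) = τ x := by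
  refine ⟨OO, inferInstance, separable, isPurelyInfiniteSimple, vac ℕ, vac_state,
    exists_redFreeProd (fun _ : ℕ => OO) (fun _ => vac ℕ) (fun _ => vac_state), ?_⟩
  intro D _ ρ e h
  refine ⟨exists_redFreeProd₂ _ _ _ _ leb_state h.state, ?_⟩
  intro E _ τ i k h₂
  rintro ⟨θ, hθ⟩
  have hP := pdense h (fun _ => vac_state) (fun _ => vac_pdense)
  have hP' : Pdense τ := hP.iso θ.symm (fun x => by
    rw [← hθ, StarAlgEquiv.apply_symm_apply])
  refine not_pdense h₂.toFam (j := true) (b := (coord : C(unitInterval, ℂ))) ?_ leb_crit hP'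
  exact fun x => congrArg leb (mul_comm (show C(unitInterval, ℂ) from x) coord)

end Pool.Agent.Results.MP_f16f70_an.NotStateIsomorphic
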